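import Pool.Agent.H693R3.SpecDir4

/-!
Problem MP_ec4324_co: for every fixed k ≥ 4 and every large prime p, no subset of the plane over
the field with p elements is equidistributed in exactly p + 1 - k directions (k special
directions). With k = 4 this gives d = p - 3, so the answer to Q1 is negative.
The analytic core (no set of size divisible by p has exactly k special directions, p large) is
the starting theorem S11957 (file H693R3/SpecDir4).
-/

set_option autoImplicit false

namespace Pool.Agent.Results.MP_ec4324_co.Fails

open Module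

/-- the plane over the field with `p` elements -/
abbrev Plane (p : ℕ) : Type := ZMod p × ZMod p

/-- The number of points of `S` on the line through `x` parallel to `v`. -/
noncomputable def onLine {p : ℕ} (S : Finset (Plane p)) (v : Submodule (ZMod p) (Plane p))
    (x : Plane p) : ℕ := {q : Plane p | q ∈ S ∧ q - x ∈ v}.ncard

/-- The directions (one-dimensional subspaces) in which `S` is equidistributed: every line
parallel to `v` meets `S` in the same number of points. -/
def equiDirections {p : ℕ} [Fact p.Prime] (S : Finset (Plane p)) :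
    Set (Submodule (ZMod p) (Plane p)) :=
  {v | finrank (ZMod p) v = 1 ∧ ∀ x y : Plane p, onLine S v x = onLine S v y}

section
variable {p : ℕ} [Fact p.Prime]

/-- the linear form cutting out the direction `d` -/
def form (d : Option (ZMod p)) : Plane p →ₗ[ZMod p] ZMod p :=
  d.elim (LinearMap.fst (ZMod p) (ZMod p) (ZMod p))
    (fun m => LinearMap.snd (ZMod p) (ZMod p) (ZMod p) - m • LinearMap.fst (ZMod p) (ZMod p) (ZMod p))

lemma form_none (q : Plane p) : form none q = q.1 := rfl

lemma form_some (m : ZMod p) (q : Plane p) : form (some m) q = q.2 - m * q.1 := by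
  simp [form]

lemma form_eq (d : Option (ZMod p)) (q : Plane p) :
    form d q = d.elim q.1 (fun m => q.2 - m * q.1) := by
  cases d with
  | none => rfl
  | some m => exact form_some m q

lemma form_surj (d : Option (ZMod p)) : Function.Surjective (form d) := by
  intro b
  cases d with
  | none => exact ⟨(b, 0), rfl⟩
  | some m => exact ⟨(0, b), by rw [form_some]; simp⟩

lemma finrank_plane : finrank (ZMod p) (Plane p) = 2 := by
  rw [Module.finrank_prod, Module.finrank_self]

lemma finrank_ker (d : Option (ZMod p)) : finrank (ZMod p) (LinearMap.ker (form d)) = 1 := by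
  have h := LinearMap.finrank_range_add_finrank_ker (form d)
  rw [LinearMap.range_eq_top.mpr (form_surj d), finrank_top, Module.finrank_self,
    finrank_plane] at h
  omega

lemma ker_inj : Function.Injective (fun d : Option (ZMod p) => LinearMap.ker (form d)) := by
  intro d e h
  simp only at h
  cases d with
  | none =>
    cases e with
    | none => rfl
    | some m =>
      exfalso
      have h1 : ((0 : ZMod p), (1 : ZMod p)) ∈ LinearMap.ker (form (none : Option (ZMod p))) := by
        rw [LinearMap.mem_ker]; rfl
      rw [h, LinearMap.mem_ker, form_some] at h1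
      simp at h1
  | some m =>
    have h1 : ((1 : ZMod p), m) ∈ LinearMap.ker (form (some m)) := by
      rw [LinearMap.mem_ker, form_some]; simp
    rw [h, LinearMap.mem_ker] at h1
    cases e with
    | none =>
      rw [form_none] at h1
      simp at h1
    | some m' =>
      rw [form_some] at h1
      simp only [mul_one] at h1
      rw [sub_eq_zero] at h1
      rw [h1]

lemma exists_ker (v : Submodule (ZMod p) (Plane p)) (hv : finrank (ZMod p) v = 1) :
    ∃ d : Option (ZMod p), LinearMap.ker (form d) = v := by
  obtain ⟨w, hw0, hw⟩ := finrank_eq_one_iff'.mp hv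
  have key : ∀ d : Option (ZMod p), form d w.1 = 0 → LinearMap.ker (form d) = v := by
    intro d hd
    symm
    apply Submodule.eq_of_le_of_finrank_eq
    · intro x hx
      obtain ⟨c, hc⟩ := hw ⟨x, hx⟩
      have : x = c • w.1 := by
        have := congrArg Subtype.val hc
        simpa using this.symm
      rw [LinearMap.mem_ker, this, map_smul, hd, smul_zero]
    · rw [hv, finrank_ker]
  by_cases h1 : w.1.1 = 0
  · exact ⟨none, key _ (by rw [form_none]; exact h1)⟩
  · refine ⟨some (w.1.2 / w.1.1), key _ ?_⟩
    rw [form_some, div_mul_cancel₀ _ h1, sub_self]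

lemma onLine_ker (S : Finset (Plane p)) (d : Option (ZMod p)) (x : Plane p) :
    onLine S (LinearMap.ker (form d)) x =
      (S.filter (fun q => d.elim q.1 (fun m => q.2 - m * q.1) = form d x)).card := by
  classical
  rw [onLine, ← Set.ncard_coe_finset]
  congr 1
  ext q
  simp only [Set.mem_setOf_eq, LinearMap.mem_ker, map_sub, Finset.coe_filter, sub_eq_zero,
    ← form_eq]

lemma sum_fib (S : Finset (Plane p)) (d : Option (ZMod p)) :
    ∑ b : ZMod p, (S.filter (fun q => d.elim q.1 (fun m => q.2 - m * q.1) = b)).card = S.card :=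
  (Finset.card_eq_sum_card_fiberwise (f := fun q : Plane p => d.elim q.1 (fun m => q.2 - m * q.1))
    (t := Finset.univ) (fun _ _ => Finset.mem_coe.mpr (Finset.mem_univ _))).symm

lemma equi_iff (S : Finset (Plane p)) (d : Option (ZMod p)) :
    (∀ x y : Plane p, onLine S (LinearMap.ker (form d)) x = onLine S (LinearMap.ker (form d)) y) ↔
      ∀ b : ZMod p,
        (S.filter (fun q => d.elim q.1 (fun m => q.2 - m * q.1) = b)).card * p = S.card := by
  constructor
  · intro h b
    have hall : ∀ c : ZMod p,
        (S.filter (fun q => d.elim q.1 (fun m => q.2 - m * q.1) = c)).card =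
        (S.filter (fun q => d.elim q.1 (fun m => q.2 - m * q.1) = b)).card := by
      intro c
      obtain ⟨x, hx⟩ := form_surj d c
      obtain ⟨y, hy⟩ := form_surj d b
      have := h x y
      rw [onLine_ker, onLine_ker, hx, hy] at this
      exact this
    have hs := sum_fib S d
    rw [Finset.sum_congr rfl (fun c _ => hall c), Finset.sum_const, Finset.card_univ,
      ZMod.card, smul_eq_mul, mul_comm] at hs
    exact hs
  · intro h x y
    rw [onLine_ker, onLine_ker]
    have hp : 0 < p := (Fact.out : p.Prime).pos
    apply Nat.eq_of_mul_eq_mul_right hp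
    rw [h, h]

/-- equidistributed directions and special directions together are all `p + 1` directions -/
lemma ncard_add (S : Finset (Plane p)) :
    (equiDirections S).ncard +
      {d : Option (ZMod p) | ∃ b : ZMod p,
        (S.filter (fun q => d.elim q.1 (fun m => q.2 - m * q.1) = b)).card * p ≠ S.card}.ncard
      = p + 1 := by
  classical
  set A : Set (Option (ZMod p)) := {d : Option (ZMod p) | ∃ b : ZMod p,
        (S.filter (fun q => d.elim q.1 (fun m => q.2 - m * q.1) = b)).card * p ≠ S.card} with hA
  have himg : equiDirections S = (fun d : Option (ZMod p) => LinearMap.ker (form d)) '' Aᶜ := by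
    ext v
    simp only [equiDirections, Set.mem_setOf_eq, Set.mem_image, Set.mem_compl_iff]
    constructor
    · rintro ⟨h1, h2⟩
      obtain ⟨d, rfl⟩ := exists_ker v h1
      refine ⟨d, ?_, rfl⟩
      rw [hA, Set.mem_setOf_eq]
      push Not
      exact (equi_iff S d).mp h2
    · rintro ⟨d, hd, rfl⟩
      refine ⟨finrank_ker d, (equi_iff S d).mpr ?_⟩
      rw [hA, Set.mem_setOf_eq] at hd
      push Not at hd
      exact hd
  rw [himg, Set.ncard_image_of_injective _ ker_inj, add_comm, Set.ncard_add_ncard_compl A,
    Nat.card_eq_fintype_card, Fintype.card_option, ZMod.card]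

end

lemma tendsto_eps (k : ℕ) :
    Filter.Tendsto (fun p : ℕ => 4 * H693R3.SpecDir.eta p k + 2 / (p : ℝ)) Filter.atTop
      (nhds 0) := by
  have h1 : Filter.Tendsto (fun x : ℝ => x ^ (-(1 / 2 ^ k : ℝ)) * (1 + Real.log x))
      Filter.atTop (nhds 0) := by
    have e1 : Filter.Tendsto (fun x : ℝ => x ^ (-(1 / 2 ^ k : ℝ))) Filter.atTop (nhds 0) :=
      tendsto_rpow_neg_atTop (by positivity)
    have e2 : Filter.Tendsto (fun x : ℝ => Real.log x / x ^ ((1 / 2 ^ k : ℝ))) Filter.atTop
        (nhds 0) :=
      (isLittleO_log_rpow_atTop (by positivity)).tendsto_div_nhds_zero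
    have e3 := e1.add e2
    rw [add_zero] at e3
    refine e3.congr' ?_
    filter_upwards [Filter.eventually_gt_atTop 0] with x hx
    rw [Real.rpow_neg hx.le]
    field_simp
  have h2 : Filter.Tendsto (fun p : ℕ => H693R3.SpecDir.eta p k) Filter.atTop (nhds 0) := by
    unfold H693R3.SpecDir.eta H693R3.SpecDir.sav
    exact h1.comp tendsto_natCast_atTop_atTop
  have h3 : Filter.Tendsto (fun p : ℕ => 2 / (p : ℝ)) Filter.atTop (nhds 0) :=
    tendsto_const_nhds.div_atTop tendsto_natCast_atTop_atTop
  have h4 := (h2.const_mul 4).add h3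
  simpa using h4

theorem special (k : ℕ) (hk : 4 ≤ k) : ∃ p₀ : ℕ, ∀ p : ℕ, p.Prime → p₀ < p →
      ∀ S : Finset (ZMod p × ZMod p), p ∣ S.card →
        {d : Option (ZMod p) | ∃ b : ZMod p,
            (S.filter (fun q => d.elim q.1 (fun m => q.2 - m * q.1) = b)).card * p
              ≠ S.card}.ncard ≠ k := by
  have h1 := (tendsto_eps k).eventually (gt_mem_nhds (show (0:ℝ) < 1 / 144 by norm_num))
  obtain ⟨p₀, hp₀⟩ := Filter.eventually_atTop.mp h1
  refine ⟨p₀, fun p hp hlt S hS => ?_⟩
  haveI : Fact p.Prime := ⟨hp⟩
  exact H693R3.SpecDir.core k hk (hp₀ p hlt.le) S hS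

lemma family (k : ℕ) (hk : 4 ≤ k) : ∃ p₀ : ℕ, ∀ (p : ℕ) [Fact p.Prime], p₀ < p →
    ∀ S : Finset (Plane p), (equiDirections S).ncard ≠ p + 1 - k := by
  classical
  obtain ⟨p₀, h⟩ := special k hk
  refine ⟨max p₀ k, ?_⟩
  intro p hpf hp S hS
  have hpp : p.Prime := Fact.out
  have hk' : k < p := lt_of_le_of_lt (le_max_right _ _) hp
  have h0 : p₀ < p := lt_of_le_of_lt (le_max_left _ _) hp
  have hadd := ncard_add S
  have hne : (equiDirections S).Nonempty := by
    apply Set.nonempty_of_ncard_ne_zero
    omega
  obtain ⟨v, hv1, hv2⟩ := hne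
  obtain ⟨d, rfl⟩ := exists_ker v hv1
  have hdvd : p ∣ S.card := by
    have := (equi_iff S d).mp hv2 0
    exact ⟨_, by rw [← this, mul_comm]⟩
  apply h p hpp h0 S hdvd
  have h3 : {d : Option (ZMod p) | ∃ b : ZMod p,
        (S.filter (fun q => d.elim q.1 (fun m => q.2 - m * q.1) = b)).card * p ≠ S.card}.ncard
      = k := by omega
  exact h3

/-- **Main result.** For every `k ≥ 4` and every sufficiently large prime `p`, no set in the
plane over the field with `p` elements is equidistributed in exactly `p + 1 - k` directions.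
In particular it is false that for every prime `p` and every `d ≤ p - 2` some set is
equidistributed in exactly `d` directions. -/
theorem result :
    (∀ k : ℕ, 4 ≤ k → ∃ p₀ : ℕ, ∀ (p : ℕ) [Fact p.Prime], p₀ < p →
      ∀ S : Finset (Plane p), (equiDirections S).ncard ≠ p + 1 - k) ∧
    ¬ (∀ (p : ℕ) [Fact p.Prime] (d : ℕ), d ≤ p - 2 →
      ∃ S : Finset (Plane p), (equiDirections S).ncard = d) := by
  refine ⟨fun k hk => family k hk, ?_⟩
  intro hall
  obtain ⟨p₀, h⟩ := family 4 le_rfl
  obtain ⟨p, hp, hpp⟩ := Nat.exists_infinite_primes (p₀ + 4)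
  haveI : Fact p.Prime := ⟨hpp⟩
  obtain ⟨S, hS⟩ := hall p (p + 1 - 4) (by omega)
  exact h p (by omega) S hS

end Pool.Agent.Results.MP_ec4324_co.Fails
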